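import Mathlib

/-!
# Binary digit sums
-/

set_option autoImplicit false

namespace Pool.Agent.Q171.DG

/-- the number of ones in the binary expansion -/
def al (n : ℕ) : ℕ := (Nat.digits 2 n).sum

theorem al_rec (n : ℕ) : al n = n % 2 + al (n / 2) := by
  rcases Nat.eq_zero_or_pos n with h | h
  · subst h; simp [al]
  · rw [al, Nat.digits_def' (by norm_num) h, List.sum_cons]
    rfl

theorem al_zero : al 0 = 0 := by simp [al]

theorem al_two (m : ℕ) : al (2 * m) = al m := by
  rw [al_rec, Nat.mul_mod_right, Nat.mul_div_cancel_left m (by norm_num), zero_add]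

theorem al_two1 (m : ℕ) : al (2 * m + 1) = al m + 1 := by
  rw [al_rec, show (2 * m + 1) % 2 = 1 by omega, show (2 * m + 1) / 2 = m by omega, add_comm]

theorem al_succ_le : ∀ n : ℕ, al (n + 1) ≤ al n + 1 := by
  intro n
  induction n using Nat.strong_induction_on with
  | _ n ih =>
    obtain ⟨m, h | h⟩ : ∃ m, n = 2 * m ∨ n = 2 * m + 1 := ⟨n / 2, by omega⟩
    · rw [h, al_two, al_two1]
    · have h1 : n + 1 = 2 * (m + 1) := by omega
      rw [h1, h, al_two, al_two1]
      exact le_trans (ih m (by omega)) (by omega)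

theorem al_add_le : ∀ N a b : ℕ, a + b ≤ N → al (a + b) ≤ al a + al b := by
  intro N
  induction N with
  | zero =>
    intro a b h
    obtain ⟨rfl, rfl⟩ : a = 0 ∧ b = 0 := by omega
    simp [al_zero]
  | succ N ih =>
    intro a b h
    obtain ⟨x, hx⟩ : ∃ m, a = 2 * m ∨ a = 2 * m + 1 := ⟨a / 2, by omega⟩
    obtain ⟨y, hy⟩ : ∃ m, b = 2 * m ∨ b = 2 * m + 1 := ⟨b / 2, by omega⟩
    rcases Nat.eq_zero_or_pos (a + b) with h0 | h0
    · obtain ⟨rfl, rfl⟩ : a = 0 ∧ b = 0 := by omega
      simp [al_zero]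
    have hxy := ih x y (by omega)
    rcases hx with hx | hx <;> rcases hy with hy | hy <;> subst hx <;> subst hy
    · rw [show 2 * x + 2 * y = 2 * (x + y) by ring, al_two, al_two, al_two]; exact hxy
    · rw [show 2 * x + (2 * y + 1) = 2 * (x + y) + 1 by ring, al_two1, al_two, al_two1]; omega
    · rw [show 2 * x + 1 + 2 * y = 2 * (x + y) + 1 by ring, al_two1, al_two, al_two1]; omega
    · rw [show 2 * x + 1 + (2 * y + 1) = 2 * (x + y + 1) by ring, al_two, al_two1, al_two1]
      have := al_succ_le (x + y)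
      omega

theorem al_add (a b : ℕ) : al (a + b) ≤ al a + al b := al_add_le _ a b le_rfl

theorem al_le (n : ℕ) : al n ≤ n := by
  induction n with
  | zero => simp [al_zero]
  | succ n ih => exact le_trans (al_succ_le n) (by omega)

theorem al_pow : ∀ k n : ℕ, n < 2 ^ k → al n ≤ k := by
  intro k
  induction k with
  | zero => intro n h; simp at h; subst h; simp [al_zero]
  | succ k ih =>
    intro n h
    rw [al_rec]
    have := ih (n / 2) (by rw [pow_succ] at h; omega)
    omega

theorem al_pow1 : ∀ k n : ℕ, n + 1 < 2 ^ (k + 1) → al n ≤ k := by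
  intro k
  induction k with
  | zero => intro n h; simp at h; subst h; simp [al_zero]
  | succ k ih =>
    intro n h
    obtain ⟨m, hm | hm⟩ : ∃ m, n = 2 * m ∨ n = 2 * m + 1 := ⟨n / 2, by omega⟩
    · subst hm
      rw [al_two]
      exact al_pow _ _ (by rw [pow_succ] at h; omega)
    · subst hm
      rw [al_two1]
      have := ih m (by rw [pow_succ] at h; omega)
      omega

/-- even argument -/
theorem al_even {n : ℕ} (h : Even n) : al (n + 1) = al n + 1 := by
  obtain ⟨m, rfl⟩ := h
  rw [← two_mul, al_two1, al_two]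

/-- odd argument -/
theorem al_odd {n : ℕ} (h : Odd n) : al n = al (n - 1) + 1 := by
  obtain ⟨m, rfl⟩ := h
  rw [al_two1, Nat.add_sub_cancel, al_two]

theorem al_pred_le {n : ℕ} (h : 1 ≤ n) : al n ≤ al (n - 1) + 1 := by
  have := al_succ_le (n - 1)
  rwa [Nat.sub_add_cancel h] at this

theorem al_half {n : ℕ} (h : Even n) : al (n / 2) = al n := by
  obtain ⟨m, rfl⟩ := h
  rw [← two_mul, al_two, Nat.mul_div_cancel_left m (by norm_num)]

end Pool.Agent.Q171.DG
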