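import Pool.Agent.Q171.DG.Main
import Pool.Agent.W624.StzF

/-!
# Vanishing in the cobar complex
-/

set_option autoImplicit false
set_option linter.unusedSectionVars false

namespace Pool.Agent.Q171.DG

open Finset MvPolynomial Pool.Agent.W624.Stz

/-- homogeneous cobar polynomials as members of the complex -/
theorem TT_io {s t : ℕ} {f : QQ s}
    (hf : IsWeightedHomogeneous (fun v : Fin s × ℕ => 2 ^ (v.2 + 1) - 1) f t) (ν : Empty → ℕ) :
    TT kun s (t : ℤ) ν 0 (io s f) := by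
  refine ⟨io_cut s f, ?_⟩
  let h : ℕ →+ ℤ × ((Empty → ℕ) × ℕ) :=
    { toFun := fun n => ((n : ℤ), (0, 0)), map_zero' := by simp, map_add' := fun a b => by simp }
  have h1 : IW (wF kun) (io s f) (h t) := by
    refine IW.aeval' h (io s) ?_ hf
    intro v
    rw [io_X]
    have h2 := isWeightedHomogeneous_X (ZMod 2) (wF (kun : Empty → Kd)) (Vr.x (v.1 : ℕ) v.2)
    have h3 : wF (kun : Empty → Kd) (Vr.x (v.1 : ℕ) v.2) = h (2 ^ (v.2 + 1) - 1) := by
      have h4 : 1 ≤ 2 ^ (v.2 + 1) := Nat.one_le_two_pow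
      refine Prod.ext ?_ rfl
      change (2 : ℤ) ^ (v.2 + 1) - 1 = ((2 ^ (v.2 + 1) - 1 : ℕ) : ℤ)
      rw [Nat.cast_sub h4]
      push_cast
      ring
    rwa [h3] at h2
  have h5 : h t = ((t : ℤ), (ν, 0)) := Prod.ext rfl (Prod.ext (Subsingleton.elim _ _) rfl)
  rwa [h5] at h1

theorem van0 {t : ℕ} (h : PX 0 0 (t : ℤ)) {f : QQ 0}
    (hf : IsWeightedHomogeneous (fun v : Fin 0 × ℕ => 2 ^ (v.2 + 1) - 1) f t)
    (hd : ∑ j : Fin 2, cf 0 j f = 0) : f = 0 := by
  obtain ⟨g, _, hg⟩ := h Empty (fun _ => 0) (by simp) (io 0 f) (TT_io hf _) (by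
    rw [← io_d, hd, map_zero])
  have h1 : io 0 f = 0 := hg.symm
  rw [← ro_io 0 f, h1, map_zero]

theorem vanS {n t : ℕ} (h : PX (n + 1) 0 (t : ℤ)) {f : QQ (n + 1)}
    (hf : IsWeightedHomogeneous (fun v : Fin (n + 1) × ℕ => 2 ^ (v.2 + 1) - 1) f t)
    (hd : ∑ j : Fin (n + 3), cf (n + 1) j f = 0) : ∃ y : QQ n, ∑ j : Fin (n + 2), cf n j y = f := by
  obtain ⟨g, hg1, hg2⟩ := h Empty (fun _ => 0) (by simp) (io (n + 1) f) (TT_io hf _) (by
    rw [← io_d, hd, map_zero])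
  refine ⟨ro n g, ?_⟩
  have h1 : io (n + 1) (∑ j : Fin (n + 2), cf n j (ro n g)) = io (n + 1) f := by
    have h3 : io n (ro n g) = g := io_ro (q := n) hg1
    rw [io_d, h3]
    exact hg2
  have h2 := congrArg (ro (n + 1)) h1
  rwa [ro_io, ro_io] at h2

/-- polynomials in all variables -/
abbrev MM := MvPolynomial (ℕ × ℕ) (ZMod 2)

/-- restriction of the index set -/
noncomputable def toQ (s : ℕ) : MM →ₐ[ZMod 2] QQ s :=
  aeval (fun v => if h : v.1 < s then X (⟨v.1, h⟩, v.2) else 0)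

/-- extension of the index set -/
noncomputable def ofQ (s : ℕ) : QQ s →ₐ[ZMod 2] MM := aeval (fun v => X ((v.1 : ℕ), v.2))

theorem ofQ_X (s : ℕ) (v : Fin s × ℕ) : ofQ s (X v) = X ((v.1 : ℕ), v.2) := aeval_X _ _

theorem toQ_ofQ (s : ℕ) (f : QQ s) : toQ s (ofQ s f) = f := by
  have : (toQ s).comp (ofQ s) = AlgHom.id (ZMod 2) (QQ s) := by
    apply algHom_ext
    rintro ⟨a, n⟩
    rw [AlgHom.comp_apply, ofQ_X, toQ, aeval_X, dif_pos a.2]
    rfl
  exact DFunLike.congr_fun this f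

theorem ofQ_toQ {s : ℕ} {p : MM} (hp : p ∈ supported (ZMod 2) {v : ℕ × ℕ | v.1 < s}) :
    ofQ s (toQ s p) = p := by
  have h0 := mem_supported.mp hp
  have := hom_congr_vars (f₁ := (((ofQ s).comp (toQ s) : MM →ₐ[ZMod 2] MM) : MM →+* MM))
    (f₂ := RingHom.id MM) (p₁ := p) (p₂ := p) (by ext a; simp) (fun v hv _ => ?_) rfl
  · exact this
  · have hv1 : v.1 < s := h0 (by exact_mod_cast hv)
    change ofQ s (toQ s (X v)) = X v
    rw [toQ, aeval_X, dif_pos hv1, ofQ_X]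

theorem ofQ_supp (s : ℕ) (f : QQ s) : ofQ s f ∈ supported (ZMod 2) {v : ℕ × ℕ | v.1 < s} := by
  induction f using MvPolynomial.induction_on with
  | C a =>
    rw [← algebraMap_eq, AlgHom.commutes]
    exact Subalgebra.algebraMap_mem _ _
  | add p q hp hq => rw [map_add]; exact Subalgebra.add_mem _ hp hq
  | mul_X p v hp =>
    rw [map_mul, ofQ_X]
    exact Subalgebra.mul_mem _ hp (Algebra.subset_adjoin ⟨_, v.1.2, rfl⟩)

theorem ofQ_hom {s t : ℕ} {p : MM}
    (h : IsWeightedHomogeneous (fun v : ℕ × ℕ => 2 ^ (v.2 + 1) - 1) p t) :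
    IsWeightedHomogeneous (fun v : Fin s × ℕ => 2 ^ (v.2 + 1) - 1) (toQ s p) t := by
  have := IW.aeval' (AddMonoidHom.id ℕ) (toQ s) (w := fun v : ℕ × ℕ => 2 ^ (v.2 + 1) - 1)
    (w' := fun v : Fin s × ℕ => 2 ^ (v.2 + 1) - 1) ?_ h
  · exact this
  · intro v
    rw [toQ, aeval_X]
    split_ifs with hv
    · exact isWeightedHomogeneous_X _ (fun v : Fin s × ℕ => 2 ^ (v.2 + 1) - 1) _
    · exact IW.zero' _ _

/-- the first face -/
noncomputable def fS : MM →ₐ[ZMod 2] MM :=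
  aeval (fun v : ℕ × ℕ => (X (v.1 + 1, v.2) : MvPolynomial (ℕ × ℕ) (ZMod 2)))

/-- the inner faces -/
noncomputable def fM (m : ℕ) : MM →ₐ[ZMod 2] MM :=
  aeval (fun v : ℕ × ℕ =>
    if v.1 < m then (X v : MvPolynomial (ℕ × ℕ) (ZMod 2))
    else if v.1 = m then
      ∑ a ∈ Finset.range (v.2 + 2),
        (if a = v.2 + 1 then (1 : MvPolynomial (ℕ × ℕ) (ZMod 2)) else X (m, v.2 - a)) ^ (2 ^ a)
          * (if a = 0 then (1 : MvPolynomial (ℕ × ℕ) (ZMod 2)) else X (m + 1, a - 1))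
    else X (v.1 + 1, v.2))

theorem ofQ_cf0 (s : ℕ) (f : QQ s) : ofQ (s + 1) (cf s 0 f) = fS (ofQ s f) := by
  have : (ofQ (s + 1)).comp (cf s 0) = fS.comp (ofQ s) := by
    apply algHom_ext
    rintro ⟨a, n⟩
    rw [AlgHom.comp_apply, AlgHom.comp_apply, ofQ_X, cf, aeval_X, fS, aeval_X]
    simp only [Fin.val_zero]
    rw [if_neg (by omega), if_pos (by omega), ofQ_X]
    simp
  exact DFunLike.congr_fun this f

theorem ofQ_cfL (s : ℕ) (f : QQ s) : ofQ (s + 1) (cf s (Fin.last (s + 1)) f) = ofQ s f := by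
  have : (ofQ (s + 1)).comp (cf s (Fin.last (s + 1))) = ofQ s := by
    apply algHom_ext
    rintro ⟨a, n⟩
    rw [AlgHom.comp_apply, ofQ_X, cf, aeval_X]
    simp only [Fin.val_last]
    rw [if_pos (by have := a.2; omega), ofQ_X]
    simp
  exact DFunLike.congr_fun this f

theorem ofQ_cfM {s m : ℕ} (hm : m < s) (j : Fin (s + 2)) (hj : (j : ℕ) = m + 1) (f : QQ s) :
    ofQ (s + 1) (cf s j f) = fM m (ofQ s f) := by
  have : (ofQ (s + 1)).comp (cf s j) = (fM m).comp (ofQ s) := by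
    apply algHom_ext
    rintro ⟨a, n⟩
    rw [AlgHom.comp_apply, AlgHom.comp_apply, ofQ_X, cf, aeval_X, fM, aeval_X]
    simp only [hj]
    rcases lt_trichotomy (a : ℕ) m with h | h | h
    · rw [if_pos (by omega), if_pos (by simpa using h), ofQ_X]
      simp
    · rw [if_neg (by omega), if_neg (by omega), if_neg (by simp [h]), if_pos (by simp [h]),
        map_sum]
      refine sum_congr rfl fun i _ => ?_
      rw [map_mul, map_pow]
      congr 2
      · split_ifs with h1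
        · exact map_one _
        · rw [ofQ_X]
          simp [h]
      · split_ifs with h1
        · exact map_one _
        · rw [ofQ_X]
          simp [h]
    · rw [if_neg (by omega), if_pos (by omega), if_neg (show ¬ ((a : ℕ) < m) by omega),
        if_neg (show ¬ ((a : ℕ) = m) by omega), ofQ_X]
      simp
  exact DFunLike.congr_fun this f

/-- the differential -/
theorem ofQ_d (s : ℕ) (f : QQ s) : ofQ (s + 1) (∑ j : Fin (s + 2), cf s j f)
    = fS (ofQ s f) + ofQ s f + ∑ m ∈ Finset.range s, fM m (ofQ s f) := by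
  rw [map_sum, Fin.sum_univ_succ, Fin.sum_univ_castSucc, ofQ_cf0, Finset.sum_range]
  have h1 : ∀ i : Fin s, ofQ (s + 1) (cf s i.castSucc.succ f) = fM (i : ℕ) (ofQ s f) := fun i =>
    ofQ_cfM i.2 _ rfl f
  have h2 : ofQ (s + 1) (cf s (Fin.last s).succ f) = ofQ s f := ofQ_cfL s f
  rw [sum_congr rfl fun i _ => h1 i, h2]
  ring

theorem count_al (t : ℕ) : (Nat.digits 2 t).count 1 = al t := by
  have h : ∀ L : List ℕ, (∀ x ∈ L, x < 2) → L.count 1 = L.sum := by
    intro L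
    induction L with
    | nil => intro _; rfl
    | cons x L ih =>
      intro hx
      rw [List.count_cons, List.sum_cons, ih fun y hy => hx y (List.mem_cons_of_mem _ hy)]
      have := hx x List.mem_cons_self
      rcases (show x = 0 ∨ x = 1 by omega) with h | h <;> subst h <;> simp [add_comm]
  exact h _ fun x hx => Nat.digits_lt_base (by norm_num) hx

/-- vanishing in the form of the frozen statement -/
theorem van (s t : ℕ) (h1 : s < (Nat.digits 2 t).count 1)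
    (h2 : 2 * s ≤ (Nat.digits 2 t).count 1 + 1) (p : MM)
    (hp : p ∈ supported (ZMod 2) {v : ℕ × ℕ | v.1 < s})
    (hw : IsWeightedHomogeneous (fun v : ℕ × ℕ => 2 ^ (v.2 + 1) - 1) p t)
    (hd : fS p + p + ∑ m ∈ Finset.range s, fM m p = 0) :
    p = 0 ∨ ∃ n : ℕ, s = n + 1 ∧ ∃ q ∈ supported (ZMod 2) {v : ℕ × ℕ | v.1 < n},
      fS q + q + ∑ m ∈ Finset.range n, fM m q = p := by
  rw [count_al] at h1 h2
  have hPX := PX_zero h1 h2
  have hf := ofQ_hom (s := s) hw
  have hcd : ∑ j : Fin (s + 2), cf s j (toQ s p) = 0 := by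
    have h3 := ofQ_d s (toQ s p)
    rw [ofQ_toQ hp, hd] at h3
    have h4 := congrArg (toQ (s + 1)) h3
    rwa [toQ_ofQ, map_zero] at h4
  cases s with
  | zero =>
    left
    rw [← ofQ_toQ hp, van0 hPX hf hcd, map_zero]
  | succ n =>
    right
    obtain ⟨y, hy⟩ := vanS hPX hf hcd
    refine ⟨n, rfl, ofQ n y, ofQ_supp n y, ?_⟩
    rw [← ofQ_d, hy, ofQ_toQ hp]

end Pool.Agent.Q171.DG
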