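import Pool.Agent.Q171.DG.Steps
import Pool.Agent.Q171.DG.Al

/-!
# Digit sums bound the internal degrees in which exactness can fail
-/

set_option autoImplicit false

namespace Pool.Agent.Q171.DG

/-- bounds for the degrees of untwisted failures -/
structure BP (p n t : ℕ) : Prop where
  ge : n ≤ t
  zero : p = 0 → t < 2 ^ n
  a1 : 2 ≤ p → al t + 2 ≤ n + 2 * p
  a2 : 1 ≤ p → ∀ e, e ≤ n → al (t - e) + 1 ≤ n + 2 * p
  a3 : 1 ≤ p → 1 ≤ n → al (t - 1) + 2 ≤ n + 2 * p

/-- bounds for the degrees of twisted failures -/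
structure BQ (p n t : ℕ) : Prop where
  ge : 2 * n ≤ t
  zero : p = 0 → Even t ∧ t < 2 ^ (n + 1)
  a1 : 2 ≤ p → al t + 2 ≤ n + 2 * p
  a2 : 1 ≤ p → ∀ e, e ≤ n → al (t - 2 * e) + 1 ≤ n + 2 * p
  a3 : 1 ≤ p → 1 ≤ n → Even t → al (t - 2) + 2 ≤ n + 2 * p

theorem lemG {p n k q t : ℕ} (hp : k + q + 1 ≤ p) (hB : BQ (p - k - q) (n + 1 + k) (t + 1 + k))
    {m : ℕ} (hm : m + 1 ≤ 2 * (n + 1 + k)) (hmt : m ≤ t + 1 + k) :
    al (t + 1 + k - m) + k + 2 * q ≤ n + 2 * p + 1 ∧
    ((Even m ∨ Even (t + 1 + k - m)) → al (t + 1 + k - m) + k + 2 * q ≤ n + 2 * p) := by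
  have hR : ∀ e, e ≤ n + 1 + k → al (t + 1 + k - 2 * e) + k + 2 * q ≤ n + 2 * p := by
    intro e he
    have := hB.a2 (by omega) e he
    omega
  obtain ⟨g, hg | hg⟩ : ∃ g, m = 2 * g ∨ m = 2 * g + 1 := ⟨m / 2, by omega⟩
  · have := hR g (by omega)
    rw [hg]
    exact ⟨by omega, fun _ => this⟩
  · rcases Nat.even_or_odd (t + 1 + k - m) with he | ho
    · have h1 := al_even he
      have h2 := hR g (by omega)
      rw [show t + 1 + k - m + 1 = t + 1 + k - 2 * g by omega] at h1
      exact ⟨by omega, fun _ => by omega⟩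
    · have h1 := al_odd ho
      have h2 := hR (g + 1) (by omega)
      rw [show t + 1 + k - m - 1 = t + 1 + k - 2 * (g + 1) by omega] at h1
      refine ⟨by omega, fun h => ?_⟩
      rcases h with h | h
      · obtain ⟨c, hc⟩ := h; omega
      · exact absurd h (Nat.not_even_iff_odd.mpr ho)

/-- the size bound in cohomological degree zero -/
theorem lemZ {n k t x : ℕ} (hB : BQ 0 (n + 1 + k) (t + 1 + k)) (hx : x < t + 1 + k) :
    al x ≤ n + 1 + k := by
  obtain ⟨⟨c, hc⟩, h2⟩ := hB.zero rfl
  apply al_pow1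
  have : (2 : ℕ) ^ (n + 1 + k + 1) = 2 * 2 ^ (n + 1 + k) := by rw [pow_succ]; ring
  omega

theorem kqQ {p n t k q : ℕ} (ht : 2 * n ≤ t) (hq1 : 1 ≤ q) (hq2 : q ≤ 1 + k) (hp : k + q ≤ p)
    (hB : BQ (p - k - q) (n + 1 + k) (t + 1 + k)) : BQ p n t := by
  rcases Nat.lt_or_ge (k + q) p with hlt | hge
  · have hG := fun (m : ℕ) (h1 : m + 1 ≤ 2 * (n + 1 + k)) (h2 : m ≤ t + 1 + k) =>
      lemG (m := m) (by omega) hB h1 h2
    refine ⟨ht, fun h => by omega, fun _ => ?_, fun _ e he => ?_, fun _ hn hev => ?_⟩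
    · have h1 := hG (1 + k) (by omega) (by omega)
      rw [show t + 1 + k - (1 + k) = t by omega] at h1
      rcases Nat.eq_zero_or_pos k with hk | hk
      · subst hk
        obtain rfl : q = 1 := by omega
        rcases Nat.even_or_odd t with hev | hod
        · have := h1.2 (Or.inr hev); omega
        · have h2 := al_odd hod
          have h3 := hB.a3 (by omega) (by omega) (by
            obtain ⟨c, hc⟩ := hod
            exact ⟨c + 1, by omega⟩)
          rw [show t + 1 + 0 - 2 = t - 1 by omega] at h3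
          omega
      · omega
    · have h1 := hG (1 + k + 2 * e) (by omega) (by omega)
      rw [show t + 1 + k - (1 + k + 2 * e) = t - 2 * e by omega] at h1
      omega
    · have h1 := hG (3 + k) (by omega) (by omega)
      rw [show t + 1 + k - (3 + k) = t - 2 by omega] at h1
      rcases Nat.eq_zero_or_pos k with hk | hk
      · have := h1.2 (Or.inr (by
          obtain ⟨c, hc⟩ := hev
          exact ⟨c - 1, by omega⟩))
        omega
      · omega
  · have hpk : p - k - q = 0 := by omega
    rw [hpk] at hB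
    have hZ := fun (x : ℕ) (h : x < t + 1 + k) => lemZ hB h
    refine ⟨ht, fun h => by omega, fun h => ?_, fun h e he => ?_, fun h hn hev => ?_⟩
    · have := hZ t (by omega)
      omega
    · have := hZ (t - 2 * e) (by omega)
      omega
    · rcases Nat.eq_zero_or_pos k with hk | hk
      · subst hk
        obtain ⟨⟨c, hc⟩, _⟩ := hB.zero rfl
        obtain ⟨d, hd⟩ := hev
        omega
      · have := hZ (t - 2) (by omega)
        omega

theorem kqP {p n t k q : ℕ} (ht : n ≤ t) (hn0 : 1 ≤ n) (hq1 : 1 ≤ q) (hq2 : q ≤ 1 + k)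
    (hp : k + q ≤ p)
    (hB : BQ (p - k - q) (n + 1 + k) (t + 1 + k)) : BP p n t := by
  rcases Nat.lt_or_ge (k + q) p with hlt | hge
  · have hG := fun (m : ℕ) (h1 : m + 1 ≤ 2 * (n + 1 + k)) (h2 : m ≤ t + 1 + k) =>
      lemG (m := m) (by omega) hB h1 h2
    refine ⟨ht, fun h => by omega, fun _ => ?_, fun _ e he => ?_, fun _ hn => ?_⟩
    · have h1 := hG (1 + k) (by omega) (by omega)
      rw [show t + 1 + k - (1 + k) = t by omega] at h1
      rcases Nat.eq_zero_or_pos k with hk | hk
      · subst hk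
        obtain rfl : q = 1 := by omega
        rcases Nat.even_or_odd t with hev | hod
        · have := h1.2 (Or.inr hev); omega
        · have h2 := al_odd hod
          have h3 := hB.a3 (by omega) (by omega) (by
            obtain ⟨c, hc⟩ := hod
            exact ⟨c + 1, by omega⟩)
          rw [show t + 1 + 0 - 2 = t - 1 by omega] at h3
          omega
      · omega
    · have h1 := hG (1 + k + e) (by omega) (by omega)
      rw [show t + 1 + k - (1 + k + e) = t - e by omega] at h1
      omega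
    · have h1 := hG (2 + k) (by omega) (by omega)
      rw [show t + 1 + k - (2 + k) = t - 1 by omega] at h1
      rcases Nat.eq_zero_or_pos k with hk | hk
      · have := h1.2 (Or.inl ⟨1, by omega⟩)
        omega
      · omega
  · have hpk : p - k - q = 0 := by omega
    rw [hpk] at hB
    have hZ := fun (x : ℕ) (h : x < t + 1 + k) => lemZ hB h
    refine ⟨ht, fun h => by omega, fun h => ?_, fun h e he => ?_, fun h hn => ?_⟩
    · have := hZ t (by omega)
      omega
    · have := hZ (t - e) (by omega)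
      omega
    · rcases Nat.eq_zero_or_pos k with hk | hk
      · subst hk
        obtain rfl : q = 1 := by omega
        obtain ⟨⟨c, hc⟩, h2⟩ := hB.zero rfl
        have h3 : al (t - 1) ≤ n := by
          rw [show t - 1 = 2 * (c - 1) by omega, al_two]
          apply al_pow1
          rw [show n + 1 + 0 + 1 = (n + 1) + 1 by ring, pow_succ] at h2
          omega
        omega
      · have := hZ (t - 1) (by omega)
        omega

theorem two_mul_pow_le {m d : ℕ} (hd : 1 ≤ d) : 2 ^ (m + 1) + d ≤ 2 ^ (m + d) + 1 := by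
  obtain ⟨c, rfl⟩ : ∃ c, d = c + 1 := ⟨d - 1, by omega⟩
  have h1 : c < 2 ^ c := Nat.lt_two_pow_self
  have h2 : (2 : ℕ) ^ (m + (c + 1)) = 2 ^ (m + 1) * 2 ^ c := by rw [← pow_add]; congr 1; ring
  have h3 : 1 ≤ (2 : ℕ) ^ (m + 1) := Nat.one_le_two_pow
  have h4 : 2 ^ (m + 1) * (c + 1) ≤ 2 ^ (m + 1) * 2 ^ c := Nat.mul_le_mul_left _ h1
  rw [h2]
  nlinarith

theorem caseD {p n t d : ℕ} (ht : n ≤ t) (hd1 : 1 ≤ d) (hd2 : d ≤ n)
    (hB : BQ p (n - d) (t - d)) : BP p n t := by
  obtain ⟨m, rfl⟩ : ∃ m, n = m + d := ⟨n - d, by omega⟩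
  obtain ⟨y, rfl⟩ : ∃ y, t = y + d := ⟨t - d, by omega⟩
  rw [Nat.add_sub_cancel, Nat.add_sub_cancel] at hB
  have hge := hB.ge
  refine ⟨ht, fun h => ?_, fun h => ?_, fun h e he => ?_, fun h hn => ?_⟩
  · obtain ⟨⟨c, hc⟩, h2⟩ := hB.zero h
    have h3 := two_mul_pow_le (m := m) hd1
    have h4 : (2 : ℕ) ^ (m + 1) = 2 * 2 ^ m := by rw [pow_succ]; ring
    omega
  · have h1 := hB.a1 h
    have h2 := al_add y d
    have h3 := al_le d
    omega
  · rcases Nat.lt_or_ge e d with hlt | hge2
    · have h1 := hB.a2 h 0 (Nat.zero_le _)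
      rw [show y - 2 * 0 = y by omega] at h1
      have h2 := al_add y (d - e)
      have h3 := al_le (d - e)
      rw [show y + (d - e) = y + d - e by omega] at h2
      omega
    · obtain ⟨g, hg | hg⟩ : ∃ g, e - d = 2 * g ∨ e - d = 2 * g + 1 := ⟨(e - d) / 2, by omega⟩
      · have h1 := hB.a2 h g (by omega)
        rw [show y + d - e = y - 2 * g by omega]
        omega
      · have h0 := hB.a2 h g (by omega)
        have h1 := hB.a2 h (g + 1) (by omega)
        have h5 := al_succ_le (y - 2 * (g + 1))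
        rcases Nat.even_or_odd (y - 2 * g) with hev | hod
        · obtain ⟨c, hc⟩ := hev
          rw [show y + d - e = y - 2 * (g + 1) + 1 by omega]
          omega
        · have h2 := al_odd hod
          rw [show y + d - e = y - 2 * g - 1 by omega]
          omega
  · have h1 := hB.a2 h 0 (Nat.zero_le _)
    rw [show y - 2 * 0 = y by omega] at h1
    have h2 := al_add y (d - 1)
    have h3 := al_le (d - 1)
    rw [show y + (d - 1) = y + d - 1 by omega] at h2
    omega

theorem caseLow {p n t k : ℕ} (hk1 : 1 ≤ k) (hk2 : k ≤ p) (hB : BP (p - k) n t) : BP p n t := by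
  rcases Nat.eq_zero_or_pos (p - k) with h0 | h0
  · have hz := hB.zero h0
    have hx : ∀ x, x ≤ t → al x ≤ n := fun x hx => al_pow _ _ (by omega)
    refine ⟨hB.ge, fun h => by omega, fun h => ?_, fun h e he => ?_, fun h hn => ?_⟩
    · have := hx t le_rfl; omega
    · have := hx (t - e) (by omega); omega
    · have := hx (t - 1) (by omega); omega
  · refine ⟨hB.ge, fun h => by omega, fun h => ?_, fun h e he => ?_, fun h hn => ?_⟩
    · have h1 := hB.a2 h0 0 (Nat.zero_le _)
      rw [Nat.sub_zero] at h1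
      omega
    · have h1 := hB.a2 h0 e he
      omega
    · have h1 := hB.a3 h0 hn
      omega

theorem caseHalf {p n t : ℕ} (hn : 1 ≤ n) (hB : BQ p n t) : BP p (2 * n) t := by
  have hge := hB.ge
  refine ⟨hge, fun h => ?_, fun h => ?_, fun h e he => ?_, fun h _ => ?_⟩
  · have h1 := (hB.zero h).2
    exact lt_of_lt_of_le h1 (Nat.pow_le_pow_right (by norm_num) (by omega))
  · have := hB.a1 h; omega
  · obtain ⟨g, hg | hg⟩ : ∃ g, e = 2 * g ∨ e = 2 * g + 1 := ⟨e / 2, by omega⟩
    · have h1 := hB.a2 h g (by omega)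
      rw [hg]; omega
    · have h0 := hB.a2 h g (by omega)
      have h1 := hB.a2 h (g + 1) (by omega)
      have h5 := al_succ_le (t - 2 * (g + 1))
      rcases Nat.even_or_odd (t - 2 * g) with hev | hod
      · obtain ⟨c, hc⟩ := hev
        rw [show t - e = t - 2 * (g + 1) + 1 by omega]
        omega
      · have h2 := al_odd hod
        rw [show t - e = t - 2 * g - 1 by omega]
        omega
  · rcases Nat.even_or_odd t with hev | hod
    · have h1 := hB.a3 h hn hev
      have h5 := al_succ_le (t - 2)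
      rw [show t - 1 = t - 2 + 1 by omega]
      omega
    · have h1 := hB.a2 h 0 (Nat.zero_le _)
      rw [show t - 2 * 0 = t by omega] at h1
      have h2 := al_odd hod
      omega

theorem caseDbl {p n t : ℕ} (hB : BP p n t) : BQ p n (2 * t) := by
  have hge := hB.ge
  refine ⟨by omega, fun h => ?_, fun h => ?_, fun h e he => ?_, fun h hn _ => ?_⟩
  · have h1 := hB.zero h
    exact ⟨⟨t, by ring⟩, by rw [pow_succ]; omega⟩
  · rw [al_two]; exact hB.a1 h
  · have h1 := hB.a2 h e he
    rwa [← Nat.mul_sub, al_two]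
  · have h1 := hB.a3 h hn
    rw [show 2 * t - 2 = 2 * (t - 1) by omega, al_two]
    exact h1

theorem case00 {p t : ℕ} (hB : BQ p 0 t) : BP p 0 t := by
  refine ⟨Nat.zero_le _, fun h => ?_, fun h => hB.a1 h, fun h e he => ?_, fun _ hn => by omega⟩
  · obtain ⟨⟨c, hc⟩, h2⟩ := hB.zero h
    simp at h2 ⊢
    omega
  · obtain rfl : e = 0 := by omega
    exact hB.a2 h 0 le_rfl

theorem main : ∀ p : ℕ, ∀ n t : ℕ, (¬ PX p n (t : ℤ) → BP p n t) ∧ (¬ QX p n 0 (t : ℤ) → BQ p n t) := by
  intro p
  induction p using Nat.strong_induction_on with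
  | _ p ihp =>
    have hkq : ∀ n t k q : ℕ, 1 ≤ q → q ≤ 1 + k → k + q ≤ p →
        ¬ QX (p - k - q) (n + 1 + k) 0 ((t : ℤ) + 1 + k) →
        BQ (p - k - q) (n + 1 + k) (t + 1 + k) := by
      intro n t k q h1 h2 h3 h4
      refine (ihp (p - k - q) (by omega) (n + 1 + k) (t + 1 + k)).2 ?_
      push_cast
      exact h4
    have geP : ∀ n t : ℕ, ¬ PX p n (t : ℤ) → n ≤ t := by
      intro n t h
      by_contra hlt
      exact h (PX_lt (by omega))
    have geQ : ∀ n t : ℕ, ¬ QX p n 0 (t : ℤ) → 2 * n ≤ t := by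
      intro n t h
      by_contra hlt
      exact h (QX_lt (by omega))
    intro n
    induction n using Nat.strong_induction_on with
    | _ n ihn =>
      rcases Nat.eq_zero_or_pos n with hn | hn
      · subst hn
        intro t
        induction t using Nat.strong_induction_on with
        | _ t iht =>
          have hQ : ¬ QX p 0 0 (t : ℤ) → BQ p 0 t := by
            intro h
            rcases Nat.eq_zero_or_pos t with ht | ht
            · subst ht
              refine ⟨le_rfl, fun _ => ⟨⟨0, rfl⟩, by norm_num⟩, fun h => ?_, fun h e he => ?_,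
                fun _ hn => by omega⟩
              · rw [al_zero]; omega
              · rw [Nat.zero_sub, al_zero]; omega
            · rcases fail_Q h with ⟨t', ht', hf⟩ | ⟨k, q, h1, h2, h3, h4⟩
              · obtain ⟨t0, rfl⟩ : ∃ t0 : ℕ, t' = t0 := ⟨t'.toNat, by omega⟩
                obtain rfl : t = 2 * t0 := by omega
                exact caseDbl ((iht t0 (by omega)).1 hf)
              · exact kqQ (geQ 0 t h) h1 h2 h3 (hkq 0 t k q h1 h2 h3 h4)
          refine ⟨fun h => ?_, hQ⟩
          obtain ⟨d, hd, hf⟩ := fail_PA h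
          obtain rfl : d = 0 := by omega
          rw [Nat.cast_zero, sub_zero] at hf
          exact case00 (hQ hf)
      · intro t
        have hP : ∀ t : ℕ, ¬ PX p n (t : ℤ) → BP p n t := by
          intro t h
          have hge := geP n t h
          rcases fail_P0 h with ⟨d, hd1, hd2, hf⟩ | ⟨k, q, h1, h2, h3, h4⟩ | ⟨k, hk1, hk2, hf⟩ |
            ⟨n', hn', hf⟩
          · refine caseD hge hd1 hd2 ((ihn (n - d) (by omega) (t - d)).2 ?_)
            rwa [show ((t - d : ℕ) : ℤ) = (t : ℤ) - d by omega]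
          · exact kqP hge hn h1 h2 h3 (hkq n t k q h1 h2 h3 h4)
          · exact caseLow hk1 hk2 ((ihp (p - k) (by omega) n t).1 hf)
          · subst hn'
            exact caseHalf (by omega) ((ihn n' (by omega) t).2 hf)
        refine ⟨hP t, fun h => ?_⟩
        rcases fail_Q h with ⟨t', ht', hf⟩ | ⟨k, q, h1, h2, h3, h4⟩
        · obtain ⟨t0, rfl⟩ : ∃ t0 : ℕ, t' = t0 := ⟨t'.toNat, by omega⟩
          obtain rfl : t = 2 * t0 := by omega
          exact caseDbl (hP t0 hf)
        · exact kqQ (geQ n t h) h1 h2 h3 (hkq n t k q h1 h2 h3 h4)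

/-- exactness of the cobar complex in cohomological degree `s` and internal degree `t` -/
theorem PX_zero {s t : ℕ} (h1 : s < al t) (h2 : 2 * s ≤ al t + 1) : PX s 0 (t : ℤ) := by
  by_contra h
  have hB := (main s 0 t).1 h
  rcases Nat.eq_zero_or_pos s with hs | hs
  · have := hB.zero hs
    simp at this
    subst this
    rw [al_zero] at h1
    omega
  · have h3 := hB.a2 hs 0 le_rfl
    rw [Nat.sub_zero] at h3
    rcases Nat.lt_or_ge s 2 with h4 | h4
    · omega
    · have := hB.a1 h4
      omega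

end Pool.Agent.Q171.DG
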