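import Pool.Agent.W624.StzI

/-!
# The induction steps of `W624` in one exact internal degree

`PX p n t` : the untwisted complexes of total degree `n` are exact in cohomological degree `p` and
internal degree `t`; `QX p n j t` : the same for the twisted complexes.
-/

set_option autoImplicit false
set_option linter.unusedSectionVars false

namespace Pool.Agent.Q171.DG

open Finset MvPolynomial Pool.Agent.W624.Stz

/-- exactness for the untwisted complexes in internal degree `t` -/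
def PX (p n : ℕ) (t : ℤ) : Prop := ∀ (K : Type) [Fintype K] (ν : K → ℕ), ∑ c, ν c = n →
  Ex (kun : K → Kd) p t ν 0

/-- exactness for the twisted complexes in internal degree `t` -/
def QX (p n j : ℕ) (t : ℤ) : Prop := ∀ (K : Type) [Fintype K] (ν : K → ℕ), ∑ c, ν c = n →
  Ex (ktw : K → Kd) p t ν j

theorem PX_lt {p n : ℕ} {t : ℤ} (h : t < n) : PX p n t := by
  obtain ⟨r, hr⟩ := (main_ind p).1 n t h
  exact fun K _ ν hν => hr K ν hν t (by simp)

theorem QX_lt {p n : ℕ} {t : ℤ} (h : t < 2 * (n : ℤ)) : QX p n 0 t := by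
  obtain ⟨r, hr⟩ := (main_ind p).2 n t h
  exact fun K _ ν hν => hr K ν hν t (by simp)

theorem xQ : ∀ (p n j : ℕ) (t : ℤ), 1 ≤ j →
    (∀ q, 1 ≤ q → q ≤ j → q ≤ p → QX (p - q) (n + j) 0 t) → QX p n j t := by
  intro p
  induction p with
  | zero =>
    intro n j t hj _ K _ ν _
    exact LemT0 t ν j hj
  | succ p ih =>
    intro n j t hj H K _ ν hν
    refine LemT p t ν j hj fun i hi1 hi2 => ?_
    have key : QX p (n + i) (j - i) t := by
      rcases Nat.lt_or_ge i j with hlt | hge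
      · refine ih (n + i) (j - i) t (by omega) fun q hq1 hq2 hq3 => ?_
        have := H (q + 1) (by omega) (by omega) (by omega)
        rw [show n + i + (j - i) = n + j by omega]
        rwa [show p + 1 - (q + 1) = p - q by omega] at this
      · have hij : i = j := by omega
        subst hij
        rw [Nat.sub_self]
        simpa using H 1 le_rfl hi1 (by omega)
    exact key (Option K) (nx ν i) (by rw [sum_nx, hν])

theorem xB {p n : ℕ} {t : ℤ} (hQ : ∀ k : ℕ, k ≤ p → QX (p - k) n (1 + k) (t + 1 + k))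
    (hA : ∀ t', t = 2 * t' → PX p n t') : QX p n 0 t := by
  intro K _ ν hν f hf hdf
  obtain ⟨g, h, hg, hDg, hdg, hh, hfe⟩ := liftT hf (by rw [hdf, map_zero])
    (fun k hk => hQ k hk K ν hν)
  have claim : ∃ h', TT ktw (p - 1) t ν 0 h' ∧ dm ktw p h' = g := by
    rcases PHI_root hg hDg with h0 | ⟨t', ht', z, hz, hzg⟩
    · exact ⟨0, TT.zero, by rw [map_zero, h0]⟩
    · have hdz : dd kun p z = 0 := by
        apply PHI_inj
        rw [PHI_dd, hzg, hdg, hdf]
      obtain ⟨z', hz', hdz'⟩ := hA t' ht' K ν hν z hz hdz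
      refine ⟨PHI K z', ⟨by rw [← PHI_cut, hz'.cu], ?_⟩, by rw [← PHI_dm, hdz', hzg]⟩
      have h5 := IW_PHI hz'.iw
      have h6 : dbl (K → ℕ) (t', (ν, 0)) = (t, (ν, 0)) := by
        rw [ht']; rfl
      rwa [h6] at h5
  obtain ⟨h', hh', hdh'⟩ := claim
  exact ⟨h' + h, hh'.add hh, by rw [map_add, hdh', ← hfe]⟩

theorem xA {p n : ℕ} {t : ℤ} (h : ∀ d : ℕ, d ≤ n → QX p (n - d) 0 (t - d)) : PX p n t := by
  intro K _ ν hν f hf hdf
  have hR := Rel_SU (naf_un (K := K))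
  refine BB p _ kun naf_un t ν le_rfl ?_ f hf hdf ?_
  · intro d hd1 hd2 ν' hν'
    exact h d (by omega) K ν' (by omega)
  · have h0 := h 0 (Nat.zero_le _) K ν (by omega)
    rw [Nat.cast_zero, sub_zero] at h0
    exact h0 (PI (SU kun) f) (hf.PI hR) (by rw [← PI_dd hR, hdf, map_zero])

theorem xA0 {p n : ℕ} {t : ℤ}
    (hQ : ∀ k : ℕ, k ≤ p → QX (p - k) n (1 + k) (t + 1 + k))
    (hpc : ∀ d : ℕ, 1 ≤ d → d ≤ n → QX p (n - d) 0 (t - d))
    (hlow : ∀ k, 1 ≤ k → k ≤ p → PX (p - k) n t)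
    (hhalf : ∀ n', 2 * n' = n → QX p n' 0 t) : PX p n t := by
  classical
  intro K _ ν hν
  apply C2 p t ν
  · intro ν' hν' k hk hsum
    have hn' : ∑ c, ν' c = n := by
      rw [Fintype.sum_sum_type, ← sum_add_distrib, ← hν]
      exact sum_congr rfl fun c _ => hν' c
    cases k with
    | zero =>
      obtain ⟨c, hc⟩ : ∃ c, ν' (Sum.inr c) = 1 := by
        by_contra hne
        push Not at hne
        have h1 : ∑ c, ν' (Sum.inr c) ≠ 0 := by rw [hsum]; omega
        obtain ⟨c, _, hc⟩ := exists_ne_zero_of_sum_ne_zero h1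
        have h2 : ν' (Sum.inr c) ≤ ∑ c, ν' (Sum.inr c) :=
          single_le_sum (f := fun c => ν' (Sum.inr c)) (fun _ _ => Nat.zero_le _) (mem_univ c)
        have := hne c
        omega
      let e : Option {x : K ⊕ K // x ≠ Sum.inr c} ≃ K ⊕ K := Equiv.optionSubtypeNe (Sum.inr c)
      have hes : ∑ o, ν' (e o) = n := by rw [← hn']; exact Equiv.sum_comp e ν'
      have hC := C1 p t (fun o => ν' (e o)) (by
        have : e none = Sum.inr c := Equiv.optionSubtypeNe_none _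
        rw [this, hc]) (fun k hk => hQ k hk _ _ hes) (by
        intro d hd1 hd2 ν2 hν2
        rw [hes] at hd2 hν2
        exact hpc d hd1 hd2 _ ν2 (by omega))
      exact Ex_equiv (k := .un) e hC
    | succ k => exact hlow (k + 1) (by omega) hk _ ν' hn'
  · intro ν'' h2
    refine hhalf (∑ c, ν'' c) ?_ K ν'' rfl
    rw [mul_sum, ← hν]
    exact sum_congr rfl fun c _ => h2 c

/-- the source of failure in the terms with a Koszul degree -/
theorem fail_kq {p n : ℕ} {t : ℤ} (h : ¬ ∀ k : ℕ, k ≤ p → QX (p - k) n (1 + k) (t + 1 + k)) :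
    ∃ k q : ℕ, 1 ≤ q ∧ q ≤ 1 + k ∧ k + q ≤ p ∧ ¬ QX (p - k - q) (n + 1 + k) 0 (t + 1 + k) := by
  push Not at h
  obtain ⟨k, hk, hne⟩ := h
  by_contra hcon
  push Not at hcon
  apply hne
  refine xQ _ _ _ _ (by omega) fun q hq1 hq2 hq3 => ?_
  have := hcon k q hq1 hq2 (by omega)
  rwa [show n + 1 + k = n + (1 + k) by omega] at this

/-- where a twisted failure comes from -/
theorem fail_Q {p n : ℕ} {t : ℤ} (h : ¬ QX p n 0 t) :
    (∃ t', t = 2 * t' ∧ ¬ PX p n t') ∨
    ∃ k q : ℕ, 1 ≤ q ∧ q ≤ 1 + k ∧ k + q ≤ p ∧ ¬ QX (p - k - q) (n + 1 + k) 0 (t + 1 + k) := by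
  by_contra hcon
  push Not at hcon
  apply h
  refine xB ?_ fun t' ht' => hcon.1 t' ht'
  by_contra hne
  obtain ⟨k, q, h1, h2, h3, h4⟩ := fail_kq hne
  exact h4 (hcon.2 k q h1 h2 h3)

/-- where an untwisted failure comes from, by the first reduction -/
theorem fail_PA {p n : ℕ} {t : ℤ} (h : ¬ PX p n t) : ∃ d : ℕ, d ≤ n ∧ ¬ QX p (n - d) 0 (t - d) := by
  by_contra hcon
  push Not at hcon
  exact h (xA hcon)

/-- where an untwisted failure comes from, by the second reduction -/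
theorem fail_P0 {p n : ℕ} {t : ℤ} (h : ¬ PX p n t) :
    (∃ d : ℕ, 1 ≤ d ∧ d ≤ n ∧ ¬ QX p (n - d) 0 (t - d)) ∨
    (∃ k q : ℕ, 1 ≤ q ∧ q ≤ 1 + k ∧ k + q ≤ p ∧ ¬ QX (p - k - q) (n + 1 + k) 0 (t + 1 + k)) ∨
    (∃ k : ℕ, 1 ≤ k ∧ k ≤ p ∧ ¬ PX (p - k) n t) ∨
    (∃ n', 2 * n' = n ∧ ¬ QX p n' 0 t) := by
  by_contra hcon
  push Not at hcon
  obtain ⟨h1, h2, h3, h4⟩ := hcon
  apply h
  refine xA0 ?_ h1 h3 h4
  by_contra hne
  obtain ⟨k, q, e1, e2, e3, e4⟩ := fail_kq hne
  exact e4 (h2 k q e1 e2 e3)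

end Pool.Agent.Q171.DG
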